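import Pool.Agent.Helper25_CN3.Stmts

/-!
Squad CN3, module C_HIT: soundness of the search.
-/

namespace Pool.Agent.CN3.H50

open Pool.Agent.CN3

theorem c_hit : C_HIT := by
  intro c fs
  induction fs with
  | nil =>
    intro T P h _ _
    simp [hit] at h
  | cons f fs ih =>
    intro T P h hT hP
    unfold hit at h
    by_cases hm : (f.any fun x => T.contains x) = true
    · rw [if_pos hm] at h
      obtain ⟨f', hf', hx⟩ := ih T P h hT hP
      exact ⟨f', List.mem_cons_of_mem _ hf', hx⟩
    · rw [if_neg hm] at h
      by_cases hx : ∃ x ∈ f, P x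
      · obtain ⟨x, hxf, hxP⟩ := hx
        rw [List.all_eq_true] at h
        have h1 := h x hxf
        rw [Bool.or_eq_true, Bool.or_eq_true, decide_eq_true_iff, List.any_eq_true] at h1
        have h2 : hit c fs (x :: T) = true := by
          rcases h1 with (h1 | ⟨y, hy, h1⟩) | h1
          · exact absurd h1 (hP x x hxP hxP)
          · rw [decide_eq_true_iff] at h1
            exact absurd h1 (hP x y hxP (hT y hy))
          · exact h1
        have h3 : ∀ y ∈ x :: T, P y := by
          intro y hy
          rcases List.mem_cons.mp hy with rfl | hy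
          · exact hxP
          · exact hT y hy
        obtain ⟨f', hf', hx'⟩ := ih (x :: T) P h2 h3 hP
        exact ⟨f', List.mem_cons_of_mem _ hf', hx'⟩
      · refine ⟨f, List.mem_cons_self, fun x hx' hxP => hx ⟨x, hx', hxP⟩⟩

end Pool.Agent.CN3.H50
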