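import Pool.Agent.Helper25_CN3.Stmts

/-!
Squad CN3, module T_ISO: isometries which preserve the time orientation of one vector.
-/

namespace Pool.Agent.CN3.H50

open Pool.Agent.CN3 Pool.Agent.H25Cong Pool.Agent.CON Pool.Agent.CN2

theorem t_iso (hT : T_TIM) : T_ISO := by
  intro n g p v hg hp hgp hv hvp
  have h1 : B (g p) (g p) < 0 := by
    rw [hg p p]
    exact hp
  have h2 : B (g v) (g v) ≤ 0 := by
    rw [hg v v]
    exact hv
  have h4 : B (g p) (g v) < 0 := by
    rw [hg p v, B_comm]
    exact hvp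
  exact (hT n p (g p) (g v) hp).2.2.1 h1.le h2 hgp h4

end Pool.Agent.CN3.H50
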